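import Pool.Agent.Y966.LD.Main4b

/-!
Lower bounds for the number of odd integers up to `x` with a given height, in the full range of the
random model: heights up to `(β₀ - ε) log x`, `β₀ = 25.3854...`.
-/

set_option autoImplicit false
set_option linter.unusedVariables false

namespace Pool.Agent.R468.HH

open Finset Filter Topology Pool.Agent.H395R2.G3 Pool.Agent.Y966.LD

/-- the frequency of odd terms which belongs to heights `β log x` -/
noncomputable def rho (β : ℝ) : ℝ := β / SS β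

theorem rho_pos {β : ℝ} (h : 0 < β) : 0 < rho β := div_pos h (SS_pos h.le)

theorem rho_eq {β : ℝ} (h : 0 ≤ β) : rho β = β * Real.log 2 / (1 + β * Real.log 3) := by
  have hl2 : 0 < Real.log 2 := Real.log_pos (by norm_num)
  have hl3 : 0 < Real.log 3 := Real.log_pos (by norm_num)
  have h1 : 0 < 1 + β * Real.log 3 := by positivity
  unfold rho SS
  field_simp

theorem rho_lt {β β' : ℝ} (h : 0 ≤ β) (h1 : β < β') : rho β < rho β' := by
  have hl2 : 0 < Real.log 2 := Real.log_pos (by norm_num)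
  have hl3 : 0 < Real.log 3 := Real.log_pos (by norm_num)
  have h0' : 0 ≤ β' := by linarith
  rw [rho_eq h, rho_eq h0', div_lt_div_iff₀ (by positivity) (by positivity)]
  have : β * Real.log 2 < β' * Real.log 2 := mul_lt_mul_of_pos_right h1 hl2
  nlinarith

theorem rho_lt_one {β : ℝ} (h : 0 ≤ β) : rho β < 1 := by
  have hl2 : 0 < Real.log 2 := Real.log_pos (by norm_num)
  have hl3 : 0 < Real.log 3 := Real.log_pos (by norm_num)
  have hl : Real.log 2 < Real.log 3 := Real.log_lt_log (by norm_num) (by norm_num)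
  rw [rho_eq h, div_lt_one (by positivity)]
  nlinarith

/-- local lower bound at every `β > 0` with `H (rho β) > (rho β) log 3` -/
theorem ht_lower_gen {β : ℝ} (h : 0 < β) (hF : 0 < FF (rho β)) {ε : ℝ} (hε : 0 < ε) :
    ∃ δ : ℝ, 0 < δ ∧ ∃ X₀ : ℝ, 1 < X₀ ∧ ∀ x : ℝ, X₀ ≤ x → ∀ k : ℕ, 1 ≤ k →
      |(k : ℝ) / Real.log x - β| < δ →
      Real.exp (Real.log x * (ee (k / Real.log x) - ε)) ≤ ((HS x k).ncard : ℝ) := by
  have hl2 : 0 < Real.log 2 := Real.log_pos (by norm_num)
  have hl3 : 0 < Real.log 3 := Real.log_pos (by norm_num)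
  have g1 : 0 < rho β := rho_pos h
  have g2 : rho β < 1 := rho_lt_one h.le
  have hS := SS_pos h.le
  unfold rho at g1 g2 hF
  set ρ : ℝ := β / SS β with hρ
  -- the choice of `r`
  have hval : β * (FF ρ / ρ) = ee β := by
    rw [ee_eq h.le, hρ]
    field_simp
  have hval2 : β * (Real.log 2 / ρ - Real.log 3) = 1 := by
    rw [hρ]
    unfold SS
    field_simp
    ring
  have c1 : ContinuousAt (fun r => β * (FF r / r)) ρ :=
    continuousAt_const.mul (FF_cont.continuousAt.div continuousAt_id g1.ne')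
  have e1 : ∀ᶠ r in 𝓝[>] ρ, ee β - ε / 4 < β * (FF r / r) := by
    refine (c1.mono_left nhdsWithin_le_nhds).eventually (lt_mem_nhds ?_)
    change ee β - ε / 4 < β * (FF ρ / ρ)
    rw [hval]
    linarith
  have e2 : ∀ᶠ r in 𝓝[>] ρ, r < 1 := (gt_mem_nhds g2).filter_mono nhdsWithin_le_nhds
  have e2' : ∀ᶠ r in 𝓝[>] ρ, 0 < FF r :=
    ((FF_cont.continuousAt (x := ρ)).mono_left nhdsWithin_le_nhds).eventually (lt_mem_nhds hF)
  obtain ⟨r, hr1, hr11, hFr, hr3⟩ := (e1.and (e2.and (e2'.and self_mem_nhdsWithin))).exists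
  have hr3' : ρ < r := hr3
  have hr0 : 0 < r := by linarith
  have hsz : β * (Real.log 2 / r - Real.log 3) < 1 := by
    rw [← hval2]
    apply mul_lt_mul_of_pos_left _ h
    have : Real.log 2 / r < Real.log 2 / ρ := div_lt_div_of_pos_left hl2 g1 hr3'
    linarith
  -- the choice of `δ`
  have c2 := ee_contAt h.le
  have e3 : ∀ᶠ y in 𝓝 β, ee y < ee β + ε / 4 := c2.eventually (gt_mem_nhds (by linarith))
  have e4 : ∀ᶠ y in 𝓝 β, 0 < y := lt_mem_nhds h
  -- one function of two variables for the remaining conditions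
  have c3 : ContinuousAt (fun q : ℝ × ℝ => q.1 * ((1 / r + q.2) * Real.log 2 - Real.log 3) + q.2)
      (β, 0) := by fun_prop
  have e5 : ∀ᶠ q in 𝓝 ((β, 0) : ℝ × ℝ), q.1 * ((1 / r + q.2) * Real.log 2 - Real.log 3) + q.2 < 1 := by
    refine c3.eventually (gt_mem_nhds ?_)
    have : β * ((1 / r + 0) * Real.log 2 - Real.log 3) + 0 = β * (Real.log 2 / r - Real.log 3) := by
      ring
    change β * ((1 / r + 0) * Real.log 2 - Real.log 3) + 0 < 1
    rw [this]
    exact hsz
  have c4 : ContinuousAt (fun q : ℝ × ℝ => q.1 * (FF r / r - q.2)) (β, 0) := by fun_prop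
  have e6 : ∀ᶠ q in 𝓝 ((β, 0) : ℝ × ℝ), ee β - ε / 2 < q.1 * (FF r / r - q.2) := by
    refine c4.eventually (lt_mem_nhds ?_)
    change ee β - ε / 2 < β * (FF r / r - 0)
    rw [sub_zero]
    linarith
  obtain ⟨δ₁, hδ₁, hball₁⟩ := Metric.eventually_nhds_iff.1 (e3.and e4)
  obtain ⟨δ₂, hδ₂, hball₂⟩ := Metric.eventually_nhds_iff.1 (e5.and e6)
  set d : ℝ := δ₂ / 2 with hd
  have hd0 : 0 < d := by positivity
  obtain ⟨n₀, hn₀⟩ := eight_lower hr0 hr11 hFr hd0
  set δ : ℝ := min (min δ₁ δ₂) (β / 2) with hδ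
  have hδ0 : 0 < δ := lt_min (lt_min hδ₁ hδ₂) (by positivity)
  refine ⟨δ, hδ0, Real.exp (max 1 (max (2 * n₀ / β) (3 * Real.log 2 / d))), ?_,
    fun x hx k hk1 hkβ => ?_⟩
  · have h5 := Real.add_one_le_exp (max 1 (max (2 * n₀ / β) (3 * Real.log 2 / d)))
    have h6 : (1 : ℝ) ≤ max 1 (max (2 * n₀ / β) (3 * Real.log 2 / d)) := le_max_left _ _
    linarith
  have hx0 : 0 < x := lt_of_lt_of_le (Real.exp_pos _) hx
  have hL : max 1 (max (2 * n₀ / β) (3 * Real.log 2 / d)) ≤ Real.log x := by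
    rw [Real.le_log_iff_exp_le hx0]
    exact hx
  set L : ℝ := Real.log x with hLdef
  have hL1 : 1 ≤ L := (le_max_left _ _).trans hL
  have hL2 : 2 * n₀ / β ≤ L := ((le_max_left _ _).trans (le_max_right _ _)).trans hL
  have hL3 : 3 * Real.log 2 / d ≤ L := ((le_max_right _ _).trans (le_max_right _ _)).trans hL
  have hL0 : 0 < L := by linarith
  set y : ℝ := (k : ℝ) / L with hy
  have hky : (k : ℝ) = L * y := by
    rw [hy]
    field_simp
  have hδa : δ ≤ δ₁ := (min_le_left _ _).trans (min_le_left _ _)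
  have hδb : δ ≤ δ₂ := (min_le_left _ _).trans (min_le_right _ _)
  have hδc : δ ≤ β / 2 := min_le_right _ _
  obtain ⟨p1, p2⟩ := hball₁ (y := y) (by rw [Real.dist_eq]; linarith)
  have hdist : dist ((y, d) : ℝ × ℝ) (β, 0) < δ₂ := by
    rw [Prod.dist_eq, max_lt_iff]
    constructor
    · rw [Real.dist_eq]
      change |y - β| < δ₂
      linarith
    · rw [Real.dist_eq]
      change |d - 0| < δ₂
      rw [sub_zero, abs_of_pos hd0, hd]
      linarith
  obtain ⟨p3, p4⟩ := hball₂ hdist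
  change y * ((1 / r + d) * Real.log 2 - Real.log 3) + d < 1 at p3
  change ee β - ε / 2 < y * (FF r / r - d) at p4
  have hkn0 : n₀ ≤ k := by
    have h5 : β / 2 ≤ y := by
      have := (abs_lt.1 hkβ).1
      linarith
    have h6 : (n₀ : ℝ) ≤ k := by
      rw [hky]
      rw [div_le_iff₀ h] at hL2
      nlinarith
    exact_mod_cast h6
  obtain ⟨s, hs1, hs2⟩ := hn₀ k hkn0
  have hs3 := (abs_le.1 hs1).2
  have hsize : ((s : ℝ) + 3) * Real.log 2 - k * Real.log 3 ≤ Real.log x := by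
    have h5 : (s : ℝ) ≤ k * (1 / r + d) := by
      have : (k : ℝ) / r + d * k = k * (1 / r + d) := by ring
      linarith
    have h6 : (s : ℝ) * Real.log 2 ≤ k * (1 / r + d) * Real.log 2 :=
      mul_le_mul_of_nonneg_right h5 hl2.le
    have h7 : 3 * Real.log 2 ≤ d * L := by
      rw [div_le_iff₀ hd0] at hL3
      linarith
    have h8 : L * (y * ((1 / r + d) * Real.log 2 - Real.log 3) + d) ≤ L * 1 :=
      mul_le_mul_of_nonneg_left p3.le hL0.le
    have h9 : k * (1 / r + d) * Real.log 2 - k * Real.log 3 =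
        L * (y * ((1 / r + d) * Real.log 2 - Real.log 3)) := by
      rw [hky]
      ring
    rw [← hLdef]
    linarith
  have hcard : ({m : ℕ | m ∈ Lv (s + 3) k ∧ m % 2 = 1}.ncard : ℝ) ≤ ((HS x k).ncard : ℝ) := by
    exact_mod_cast Set.ncard_le_ncard (eight_HS hk1 hx0 hsize) (HS_finite x k)
  refine le_trans (Real.exp_le_exp.2 ?_) (hs2.trans hcard)
  rw [hky]
  have h10 : (FF r / r - d) * (L * y) = L * (y * (FF r / r - d)) := by ring
  rw [h10]
  apply mul_le_mul_of_nonneg_left _ hL0.le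
  linarith

/-- the uniform lower bound up to `B log x`, for `B` with `H (rho B) > (rho B) log 3` -/
theorem lower_unif {B : ℝ} (hB : 0 < B) (hFB : 0 < FF (rho B)) {ε : ℝ} (hε : 0 < ε) :
    ∃ X₀ : ℝ, 1 < X₀ ∧ ∀ x : ℝ, X₀ ≤ x → ∀ k : ℕ, 1 ≤ k → (k : ℝ) ≤ B * Real.log x →
      x ^ (ee (k / Real.log x) - ε) ≤ ((HS x k).ncard : ℝ) := by
  have hcomp : IsCompact (Set.Icc (0 : ℝ) B) := isCompact_Icc
  have h83 : 0 < Real.log (8 / 3) := Real.log_pos (by norm_num)
  have key := hcomp.induction_on (p := fun S : Set ℝ => ∃ X₀ : ℝ, 1 < X₀ ∧ ∀ x : ℝ, X₀ ≤ x →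
      ∀ k : ℕ, 1 ≤ k → (k : ℝ) / Real.log x ∈ S ∩ Set.Icc (0 : ℝ) B →
      Real.exp (Real.log x * (ee (k / Real.log x) - ε)) ≤ ((HS x k).ncard : ℝ))
    ⟨2, by norm_num, fun x _ k _ hk => absurd hk.1 (Set.notMem_empty _)⟩
    (by
      rintro s t hst ⟨X₀, hX, h⟩
      exact ⟨X₀, hX, fun x hx k hk hks => h x hx k hk ⟨hst hks.1, hks.2⟩⟩)
    (by
      rintro s t ⟨X₀, hX, h⟩ ⟨X₁, hX', h'⟩
      refine ⟨max X₀ X₁, lt_max_of_lt_left hX, fun x hx k hk hks => ?_⟩
      rcases hks.1 with h5 | h5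
      · exact h x ((le_max_left _ _).trans hx) k hk ⟨h5, hks.2⟩
      · exact h' x ((le_max_right _ _).trans hx) k hk ⟨h5, hks.2⟩)
    (by
      intro β hβ
      have main : ∃ δ : ℝ, 0 < δ ∧ ∃ X₀ : ℝ, 1 < X₀ ∧ ∀ x : ℝ, X₀ ≤ x → ∀ k : ℕ, 1 ≤ k →
          |(k : ℝ) / Real.log x - β| < δ →
          Real.exp (Real.log x * (ee (k / Real.log x) - ε)) ≤ ((HS x k).ncard : ℝ) := by
        rcases eq_or_lt_of_le hβ.1 with h0 | h0
        · exact ht_lower_local hβ.1 (by rw [← h0]; positivity) hε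
        · refine ht_lower_gen h0 ?_ hε
          rcases eq_or_lt_of_le hβ.2 with h1 | h1
          · rw [h1]; exact hFB
          · exact FF_pos_of (rho_pos h0) (rho_lt h0.le h1) (rho_lt_one hB.le).le hFB.le
      obtain ⟨δ, hδ, X₁, hX₁, h₁⟩ := main
      refine ⟨Metric.ball β δ, mem_nhdsWithin_of_mem_nhds (Metric.ball_mem_nhds β hδ), X₁, hX₁,
        fun x hx k hk hks => ?_⟩
      have hd : |(k : ℝ) / Real.log x - β| < δ := by
        have := hks.1
        rwa [Metric.mem_ball, Real.dist_eq] at this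
      exact h₁ x hx k hk hd)
  obtain ⟨X₀, hX₀, h⟩ := key
  refine ⟨X₀, hX₀, fun x hx k hk hkB => ?_⟩
  have hx0 : 0 < x := by linarith
  have hlog : 0 < Real.log x := Real.log_pos (by linarith)
  have hmem : (k : ℝ) / Real.log x ∈ Set.Icc (0 : ℝ) B := by
    refine ⟨by positivity, ?_⟩
    rw [div_le_iff₀ hlog]
    exact hkB
  rw [Real.rpow_def_of_pos hx0]
  exact h x hx k hk ⟨hmem, hmem⟩

/-- the constant `β₀` -/
theorem exists_beta : ∃ β₀ : ℝ, 25.3854 < β₀ ∧ β₀ < 25.3855 ∧ FF (rho β₀) = 0 := by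
  have hl2 : 0 < Real.log 2 := Real.log_pos (by norm_num)
  have hl3 : 0 < Real.log 3 := Real.log_pos (by norm_num)
  have l2a := Real.log_two_gt_d9
  have l2b := Real.log_two_lt_d9
  have l3a := Real.log_three_gt_d9
  have l3b := Real.log_three_lt_d9
  have hivt := intermediate_value_Icc' (show (4771 / 7833 : ℝ) ≤ 4905 / 8053 by norm_num)
    FF_cont.continuousOn
  obtain ⟨r₀, ⟨hr1, hr2⟩, hr0⟩ := hivt (show (0 : ℝ) ∈ Set.Icc _ _ from ⟨FF_high.le, FF_low.le⟩)
  have hD : 0 < Real.log 2 - r₀ * Real.log 3 := by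
    have h1 : r₀ * Real.log 3 ≤ 4905 / 8053 * Real.log 3 := mul_le_mul_of_nonneg_right hr2 hl3.le
    norm_num at *
    linarith
  have hr00 : 0 < r₀ := lt_of_lt_of_le (by norm_num) hr1
  refine ⟨r₀ / (Real.log 2 - r₀ * Real.log 3), ?_, ?_, ?_⟩
  · rw [lt_div_iff₀ hD]
    have h1 : 4771 / 7833 * Real.log 3 ≤ r₀ * Real.log 3 := mul_le_mul_of_nonneg_right hr1 hl3.le
    norm_num at *
    nlinarith
  · rw [div_lt_iff₀ hD]
    have h1 : r₀ * Real.log 3 ≤ 4905 / 8053 * Real.log 3 := mul_le_mul_of_nonneg_right hr2 hl3.le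
    norm_num at *
    nlinarith
  · rw [rho_eq (by positivity)]
    have : r₀ / (Real.log 2 - r₀ * Real.log 3) * Real.log 2 /
        (1 + r₀ / (Real.log 2 - r₀ * Real.log 3) * Real.log 3) = r₀ := by
      have h1 : 1 + r₀ / (Real.log 2 - r₀ * Real.log 3) * Real.log 3 =
          Real.log 2 / (Real.log 2 - r₀ * Real.log 3) := by
        field_simp
        ring
      rw [h1]
      field_simp
    rw [this]
    exact hr0

theorem ee_pos {β₀ : ℝ} (h0 : 0 < β₀) (hF : FF (rho β₀) = 0) {β : ℝ} (h : 0 < β) (h1 : β < β₀) :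
    0 < FF (rho β) :=
  FF_pos_of (rho_pos h) (rho_lt h.le h1) (rho_lt_one h0.le).le hF.ge

theorem ee_rho {β : ℝ} (h : 0 ≤ β) : ee β = SS β * FF (rho β) := ee_eq h

/-- at the conjectural mean the exponent is `1` -/
theorem ee_mean : ee (2 / Real.log (16 / 9)) = 1 := by
  have hl2 : 0 < Real.log 2 := Real.log_pos (by norm_num)
  have e43 : Real.log (4 / 3) = 2 * Real.log 2 - Real.log 3 := by
    rw [Real.log_div (by norm_num) (by norm_num), show (4 : ℝ) = 2 ^ 2 by norm_num, Real.log_pow]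
    push_cast; ring
  have h43 : 0 < Real.log (4 / 3) := Real.log_pos (by norm_num)
  have e169 : Real.log (16 / 9) = 2 * Real.log (4 / 3) := by
    rw [show (16 : ℝ) / 9 = (4 / 3) ^ 2 by norm_num, Real.log_pow]; push_cast; ring
  have hS : SS (2 / Real.log (16 / 9)) = 2 / Real.log (4 / 3) := by
    unfold SS
    rw [e169]
    rw [e43] at h43 ⊢
    field_simp
    ring
  have hr : 2 / Real.log (16 / 9) / SS (2 / Real.log (16 / 9)) = 2⁻¹ := by
    rw [hS, e169]
    field_simp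
  unfold ee
  rw [hr, hS, Real.binEntropy_two_inv, e169]
  rw [e43] at h43 ⊢
  field_simp

/-- infinitely many integers of large finite height -/
theorem large_inf {β₀ : ℝ} (h0 : 0 < β₀) (hF : FF (rho β₀) = 0) {ε : ℝ} (hε : 0 < ε) (M : ℕ) :
    ∃ m : ℕ, M ≤ m ∧ m % 2 = 1 ∧ ∃ k : ℕ, IsHeight m k ∧ (β₀ - ε) * Real.log m ≤ k := by
  classical
  by_contra hcon
  push Not at hcon
  -- `B` slightly below `β₀`
  set B : ℝ := max (β₀ - ε / 2) (β₀ / 2) with hB
  have hB0 : 0 < B := lt_of_lt_of_le (by positivity) (le_max_right _ _)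
  have hB1 : B < β₀ := max_lt (by linarith) (by linarith)
  have hB2 : β₀ - ε / 2 ≤ B := le_max_left _ _
  have hFB := ee_pos h0 hF hB0 hB1
  have hee : 0 < ee B := by
    rw [ee_rho hB0.le]
    exact mul_pos (SS_pos hB0.le) hFB
  obtain ⟨X₀, hX₀, hlow⟩ := lower_unif hB0 hFB one_pos
  -- the heights `k` at `x = exp (k / B)`
  obtain ⟨k₀, hk₀⟩ := exists_nat_ge (max 1 (max (B * Real.log X₀) 0))
  have hex : ∀ k : ℕ, k₀ ≤ k → ∃ m : ℕ, m < M ∧ IsHeight m k := by
    intro k hk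
    have hkR : (k₀ : ℝ) ≤ k := by exact_mod_cast hk
    have hk1 : (1 : ℝ) ≤ k := (le_max_left _ _).trans (hk₀.trans hkR)
    have hk1' : 1 ≤ k := by exact_mod_cast hk1
    have hkX : B * Real.log X₀ ≤ k := ((le_max_left _ _).trans (le_max_right _ _)).trans (hk₀.trans hkR)
    set x : ℝ := Real.exp (k / B) with hx
    have hlogx : Real.log x = k / B := Real.log_exp _
    have hXx : X₀ ≤ x := by
      rw [← Real.log_le_log_iff (by linarith) (Real.exp_pos _), hlogx, le_div_iff₀ hB0]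
      linarith
    have hkB : (k : ℝ) ≤ B * Real.log x := by
      rw [hlogx]
      have : B * (k / B) = k := by field_simp
      rw [this]
    have h1 := hlow x hXx k hk1' hkB
    have hpos : (0 : ℝ) < ((HS x k).ncard : ℝ) := lt_of_lt_of_le (by positivity) h1
    have hne : (HS x k).ncard ≠ 0 := by
      intro h
      rw [h] at hpos
      simp at hpos
    obtain ⟨m, hm1, hm2, hm3⟩ := Set.nonempty_of_ncard_ne_zero hne
    refine ⟨m, ?_, hm3⟩
    by_contra hMm
    push Not at hMm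
    have h2 := hcon m hMm hm1 k hm3
    have hm0 : (1 : ℝ) ≤ m := by
      have : 1 ≤ m := by omega
      exact_mod_cast this
    have h3 : Real.log m ≤ k / B := by
      rw [← hlogx]
      exact Real.log_le_log (by linarith) hm2
    have h3' : 0 ≤ Real.log m := Real.log_nonneg hm0
    have h4 : (β₀ - ε) * Real.log m ≤ B * Real.log m := by
      apply mul_le_mul_of_nonneg_right _ h3'
      linarith
    have h5 : B * Real.log m ≤ k := by
      rw [le_div_iff₀ hB0] at h3
      linarith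
    linarith
  choose! f hf using hex
  have hinj : Set.InjOn f (Set.Ici k₀) := by
    intro a ha b hb hab
    have h1 := (hf a ha).2
    have h2 := (hf b hb).2
    rw [hab] at h1
    exact h1.unique h2
  have hmaps : Set.MapsTo f (Set.Ici k₀) (Set.Iio M) := fun a ha => (hf a ha).1
  have := Set.Finite.of_injOn hmaps hinj (Set.finite_Iio M)
  exact (Set.Ici_infinite k₀) this

end Pool.Agent.R468.HH
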